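import Pool.Agent.W788.NV.Stm

set_option autoImplicit false

namespace Pool.Agent.W191.NV

open Finset Pool.Agent.W788.NV

theorem exp_up {y : ℝ} (h0 : 0 ≤ y) (h1 : y ≤ 1) : Real.exp y - 1 ≤ y + y ^ 2 := by
  have h := Real.abs_exp_sub_one_sub_id_le (x := y) (by rw [abs_of_nonneg h0]; exact h1)
  have := (abs_le.1 h).2
  linarith

theorem exp_dn {y : ℝ} (h0 : 0 ≤ y) (h1 : y ≤ 1) : Real.exp (-y) - 1 ≤ -y + y ^ 2 := by
  have h := Real.abs_exp_sub_one_sub_id_le (x := -y) (by rw [abs_neg, abs_of_nonneg h0]; exact h1)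
  have := (abs_le.1 h).2
  have e : (-y) ^ 2 = y ^ 2 := by ring
  rw [e] at this
  linarith

open scoped Classical in
theorem exm_ (h1 : S_DL) (h2 : S_TOT) : S_EXM := by
  intro V _ _ G q θ Δ l hq hθ hθ1 hd hΔ hl hlΔ Φ v
  obtain ⟨d1, d2, d3, -⟩ := h1 V q Φ v
  obtain ⟨t1, -⟩ := h2 V G q θ hq hθ.le hθ1 hd
  set D := dep Φ v with hD
  have hWd : ∀ Ψ : Mp V q, wdep G Ψ v = ∑ w ∈ dep Ψ v, (dg G w : ℝ) := fun Ψ => rfl
  set W := wdep G Φ v with hW
  have hW' : W = ∑ w ∈ D, (dg G w : ℝ) := rfl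
  set X := Real.exp (l * W) with hX
  have hXp : 0 < X := Real.exp_pos _
  have hdΔ : ∀ w, (dg G w : ℝ) ≤ Δ := fun w => by exact_mod_cast hΔ w
  have hd1 : ∀ w, (1 : ℝ) ≤ dg G w := fun w => by exact_mod_cast hd w
  have hΔ0 : (0 : ℝ) ≤ Δ := Nat.cast_nonneg _
  have hy0 : ∀ w, 0 ≤ l * dg G w := fun w => mul_nonneg hl (by linarith [hd1 w])
  have hy1 : ∀ w, l * dg G w ≤ 1 := fun w => by
    have := mul_le_mul_of_nonneg_left (hdΔ w) hl
    nlinarith
  -- values of the function
  have er : ∀ w, w ∈ D → Real.exp (l * ∑ u ∈ D.erase w, (dg G u : ℝ)) - X ≤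
      X * (-(l * dg G w) + (l * dg G w) ^ 2) := by
    intro w hw
    have e : ∑ u ∈ D.erase w, (dg G u : ℝ) = W - dg G w := by
      rw [hW', ← Finset.sum_erase_add _ _ hw]
      ring
    rw [e, show l * (W - dg G w) = l * W + -(l * dg G w) by ring, Real.exp_add]
    have := mul_le_mul_of_nonneg_left (exp_dn (hy0 w) (hy1 w)) hXp.le
    linarith
  have ern : ∀ w, w ∉ D → Real.exp (l * ∑ u ∈ D.erase w, (dg G u : ℝ)) - X = 0 := by
    intro w hw
    rw [Finset.erase_eq_of_notMem hw, ← hW', hX, sub_self]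
  have is : ∀ w, w ∉ D → Real.exp (l * ∑ u ∈ insert w D, (dg G u : ℝ)) - X ≤
      X * ((l * dg G w) + (l * dg G w) ^ 2) := by
    intro w hw
    rw [Finset.sum_insert hw, ← hW', show l * ((dg G w : ℝ) + W) = l * W + l * dg G w by ring,
      Real.exp_add]
    have := mul_le_mul_of_nonneg_left (exp_up (hy0 w) (hy1 w)) hXp.le
    linarith
  have isn : ∀ w, w ∈ D → Real.exp (l * ∑ u ∈ insert w D, (dg G u : ℝ)) - X = 0 := by
    intro w hw
    rw [Finset.insert_eq_of_mem hw, ← hW', hX, sub_self]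
  -- indicator functions
  set iD : V → ℝ := fun w => if w ∈ D then 1 else 0 with hiD
  set A : V → V → ℝ := fun w u => if G.Adj w u then 1 else 0 with hA
  have hA0 : ∀ w u, 0 ≤ A w u := fun w u => by
    simp only [hA]; split_ifs <;> norm_num
  have hAs : ∀ w u, A w u = A u w := fun w u => by
    simp only [hA, G.adj_comm]
  have hi0 : ∀ w, 0 ≤ iD w := fun w => by simp only [hiD]; split_ifs <;> norm_num
  have hi1 : ∀ w, iD w ≤ 1 := fun w => by simp only [hiD]; split_ifs <;> norm_num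
  have hdA : ∀ w, (dg G w : ℝ) = ∑ u, A w u := by
    intro w
    simp only [hA, dg]
    rw [Finset.sum_boole]
  have hWs : W = ∑ w, iD w * dg G w := by
    rw [hW']
    simp only [hiD, ite_mul, one_mul, zero_mul]
    rw [Finset.sum_ite_mem, Finset.univ_inter]
  have hinl : ∀ (w : V) (a : Fin q), mrate G q θ (Sum.inl (w, a)) *
      (Real.exp (l * wdep G (mL (Sum.inl (w, a)) Φ) v) - X) ≤
      θ / q * (X * (iD w * ((-l + l ^ 2 * Δ) * dg G w))) := by
    intro w a
    rw [hWd, d1 w a]
    change θ / q * _ ≤ _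
    have hθq : 0 ≤ θ / q := by positivity
    apply mul_le_mul_of_nonneg_left _ hθq
    by_cases hw : w ∈ D
    · refine (er w hw).trans (mul_le_mul_of_nonneg_left ?_ hXp.le)
      have e : iD w = 1 := by simp only [hiD, if_pos hw]
      rw [e]
      have h3 : (l * dg G w) ^ 2 ≤ l ^ 2 * Δ * dg G w := by
        have := mul_le_mul_of_nonneg_left (hdΔ w)
          (show 0 ≤ l ^ 2 * (dg G w : ℝ) by positivity)
        nlinarith
      nlinarith
    · rw [ern w hw]
      have e : iD w = 0 := by simp only [hiD, if_neg hw]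
      rw [e]
      simp
  have hinr : ∀ w u : V, mrate G q θ (Sum.inr (w, u)) *
      (Real.exp (l * wdep G (mL (Sum.inr (w, u)) Φ) v) - X) ≤
      (1 - θ) * X * (A w u * (1 - iD w) * iD u * (l + l ^ 2 * Δ) +
        A w u * iD w * (1 - iD u) * (-l + l ^ 2 * Δ)) := by
    intro w u
    by_cases ha : G.Adj w u
    · have eA : A w u = 1 := by simp only [hA, if_pos ha]
      have er' : mrate G q θ (Sum.inr (w, u)) = (1 - θ) / (dg G w : ℝ) := by
        simp only [mrate, if_pos ha]
      rw [er', eA, hWd]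
      have hdp : (0 : ℝ) < dg G w := by linarith [hd1 w]
      have hr : 0 ≤ (1 - θ) / (dg G w : ℝ) := div_nonneg (by linarith) hdp.le
      by_cases hu : u ∈ D
      · rw [d2 w u hu]
        have eu : iD u = 1 := by simp only [hiD, if_pos hu]
        rw [eu]
        by_cases hw : w ∈ D
        · have ew : iD w = 1 := by simp only [hiD, if_pos hw]
          rw [isn w hw, ew]
          simp
        · have ew : iD w = 0 := by simp only [hiD, if_neg hw]
          rw [ew]
          refine (mul_le_mul_of_nonneg_left (is w hw) hr).trans ?_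
          have e3 : (1 - θ) / (dg G w : ℝ) * (X * (l * dg G w + (l * dg G w) ^ 2)) =
              (1 - θ) * X * (l + l ^ 2 * dg G w) := by
            field_simp
          rw [e3]
          have h4 : 0 ≤ (1 - θ) * X := mul_nonneg (by linarith) hXp.le
          have h5 : l + l ^ 2 * dg G w ≤ l + l ^ 2 * Δ := by
            have := mul_le_mul_of_nonneg_left (hdΔ w) (sq_nonneg l)
            linarith
          have := mul_le_mul_of_nonneg_left h5 h4
          linarith
      · rw [d3 w u hu]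
        have eu : iD u = 0 := by simp only [hiD, if_neg hu]
        rw [eu]
        by_cases hw : w ∈ D
        · have ew : iD w = 1 := by simp only [hiD, if_pos hw]
          rw [ew]
          refine (mul_le_mul_of_nonneg_left (er w hw) hr).trans ?_
          have e3 : (1 - θ) / (dg G w : ℝ) * (X * (-(l * dg G w) + (l * dg G w) ^ 2)) =
              (1 - θ) * X * (-l + l ^ 2 * dg G w) := by
            field_simp
          rw [e3]
          have h4 : 0 ≤ (1 - θ) * X := mul_nonneg (by linarith) hXp.le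
          have h5 : -l + l ^ 2 * dg G w ≤ -l + l ^ 2 * Δ := by
            have := mul_le_mul_of_nonneg_left (hdΔ w) (sq_nonneg l)
            linarith
          have := mul_le_mul_of_nonneg_left h5 h4
          linarith
        · have ew : iD w = 0 := by simp only [hiD, if_neg hw]
          rw [ern w hw, ew]
          simp
    · have eA : A w u = 0 := by simp only [hA, if_neg ha]
      have er' : mrate G q θ (Sum.inr (w, u)) = 0 := by
        simp only [mrate, if_neg ha]
      rw [er', eA]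
      simp
  change ∑ e, mrate G q θ e * (Real.exp (l * wdep G (mL e Φ) v) - X) ≤ 0
  rw [Fintype.sum_sum_type, Fintype.sum_prod_type, Fintype.sum_prod_type]
  have s1 : ∑ w, ∑ a : Fin q, mrate G q θ (Sum.inl (w, a)) *
      (Real.exp (l * wdep G (mL (Sum.inl (w, a)) Φ) v) - X) ≤ θ * X * ((-l + l ^ 2 * Δ) * W) := by
    refine (Finset.sum_le_sum fun w _ => Finset.sum_le_sum fun a _ => hinl w a).trans (le_of_eq ?_)
    have hq0 : (q : ℝ) ≠ 0 := by
      have : 0 < q := hq
      exact_mod_cast this.ne'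
    simp only [Finset.sum_const, Finset.card_univ, Fintype.card_fin, nsmul_eq_mul]
    rw [hWs, Finset.mul_sum, Finset.mul_sum]
    refine Finset.sum_congr rfl fun w _ => ?_
    field_simp
  set E := ∑ w, ∑ u, A w u * iD w * (1 - iD u) with hE
  have hE2 : ∑ w, ∑ u, A w u * (1 - iD w) * iD u = E := by
    rw [hE, Finset.sum_comm]
    refine Finset.sum_congr rfl fun w _ => Finset.sum_congr rfl fun u _ => ?_
    rw [hAs u w]
    ring
  have hEW : E ≤ W := by
    rw [hWs, hE]
    refine Finset.sum_le_sum fun w _ => ?_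
    rw [hdA w, Finset.mul_sum]
    refine Finset.sum_le_sum fun u _ => ?_
    have h3 : 0 ≤ A w u * iD w := mul_nonneg (hA0 w u) (hi0 w)
    have h4 := mul_le_mul_of_nonneg_left (show 1 - iD u ≤ 1 by linarith [hi0 u]) h3
    linarith
  have s2 : ∑ w, ∑ u, mrate G q θ (Sum.inr (w, u)) *
      (Real.exp (l * wdep G (mL (Sum.inr (w, u)) Φ) v) - X) ≤ (1 - θ) * X * (2 * l ^ 2 * Δ * E) := by
    refine (Finset.sum_le_sum fun w _ => Finset.sum_le_sum fun u _ => hinr w u).trans (le_of_eq ?_)
    have e1 : ∑ w, ∑ u, (1 - θ) * X * (A w u * (1 - iD w) * iD u * (l + l ^ 2 * Δ) +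
        A w u * iD w * (1 - iD u) * (-l + l ^ 2 * Δ)) =
        (1 - θ) * X * ((∑ w, ∑ u, A w u * (1 - iD w) * iD u) * (l + l ^ 2 * Δ) +
          (∑ w, ∑ u, A w u * iD w * (1 - iD u)) * (-l + l ^ 2 * Δ)) := by
      simp only [Finset.mul_sum, Finset.sum_mul, ← Finset.sum_add_distrib]
    rw [e1, hE2, ← hE]
    ring
  have hW0 : 0 ≤ W := by rw [hW']; exact Finset.sum_nonneg fun w _ => Nat.cast_nonneg _
  have s3 : (1 - θ) * X * (2 * l ^ 2 * Δ * E) ≤ (1 - θ) * X * (2 * l ^ 2 * Δ * W) := by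
    apply mul_le_mul_of_nonneg_left _ (mul_nonneg (by linarith) hXp.le)
    exact mul_le_mul_of_nonneg_left hEW (by positivity)
  have s4 : θ * X * ((-l + l ^ 2 * Δ) * W) + (1 - θ) * X * (2 * l ^ 2 * Δ * W) =
      X * (l * W) * (-θ + (2 - θ) * (l * Δ)) := by ring
  have s5 : -θ + (2 - θ) * (l * Δ) ≤ 0 := by nlinarith
  have s6 : X * (l * W) * (-θ + (2 - θ) * (l * Δ)) ≤ 0 :=
    mul_nonpos_of_nonneg_of_nonpos (mul_nonneg hXp.le (mul_nonneg hl hW0)) s5
  linarith

end Pool.Agent.W191.NV
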